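import Pool.Agent.Q191.RS.Orbit

/-!
# MP_415091_an, Q1: yes

There are positive parameters `α, A, B` and nonnegative (even positive) initial values for which
the solution of `x_{n+1} = (α + x_{n-2}) / (A + B x_n + x_{n-1})` is bounded and converges neither
to the equilibrium nor to any periodic solution.  Here `x 0, x 1, x 2` are `x_{-2}, x_{-1}, x_0`.
-/

set_option autoImplicit false

open Filter Topology

namespace Pool.Agent.Results.MP_415091_an.BoundedNonconvergent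

/-- For every real `t ≥ 10 ^ 6` and every `A` in `(0, 4 ^ (-10 t)]` the parameters `α = 4 ^ t`,
`A`, `B = 4 ^ (-53 t / 10)` admit a positive bounded solution which does not converge to the
equilibrium nor to any periodic sequence. -/
theorem result (t A : ℝ) (ht : 1000000 ≤ t) (hA : 0 < A) (hA' : A ≤ (4 : ℝ) ^ (-(10 * t))) :
    ∃ α B : ℝ, 0 < α ∧ 0 < B ∧ α = (4 : ℝ) ^ t ∧ B = (4 : ℝ) ^ (-(53 * t / 10)) ∧
      ∃ x : ℕ → ℝ, (∀ n, 0 < x n) ∧
        (∀ n, x (n + 3) = (α + x n) / (A + B * x (n + 2) + x (n + 1))) ∧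
        (∃ M, ∀ n, x n ≤ M) ∧
        ¬ Tendsto x atTop
          (𝓝 ((1 - A + Real.sqrt ((1 - A) ^ 2 + 4 * α * (B + 1))) / (2 * (B + 1)))) ∧
        ∀ p : ℕ → ℝ, (∃ k, 1 ≤ k ∧ ∀ n, p (n + k) = p n) →
          ¬ Tendsto (fun n => x n - p n) atTop (𝓝 0) := by
  obtain ⟨x, h1, h2, h3, h4, h5⟩ := Pool.Agent.Q191.RS.final ht hA.le hA'
  exact ⟨(4 : ℝ) ^ t, (4 : ℝ) ^ (-(53 * t / 10)), by positivity, by positivity, rfl, rfl, x, h1,
    h2, h3, h4 _, h5⟩

end Pool.Agent.Results.MP_415091_an.BoundedNonconvergent
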